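import Pool.Agent.H905.SH.ParV
import Pool.Graph.R_pool_sql_team_seeded_f72693b1.W262.SH.Def
import Pool.Graph.R_pool_sql_team_seeded_f72693b1.W262.SH.Kum
import Pool.Graph.R_seed8.W131.SH.Locl2
import Pool.Graph.R_seed8.W839.SH.Desc5
import Pool.Graph.R_pool_sql_team_seeded_f72693b1.W177.SH.Div
import Pool.Graph.R_pool_sql_team_seeded_f72693b1.W333.SH.Dup
import Pool.Graph.R_pool_sql_team_seeded_f72693b1.W782.SH.LocX
import Pool.Graph.R_pool_sql_team_seeded_f72693b1.W334.SH.Sh1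
import Pool.Graph.R_pool_sql_team_seeded_f72693b1.W338.SH.Sh2

/-! The averages of `2 ^ rank * #Ш[2]` over the curves with a subgroup `Z/2 x Z/4` or
`Z/2 x Z/6`. -/

set_option autoImplicit false

namespace Pool.Agent.H905.SH

open Finset Pool.Agent.W262.RK Pool.Agent.W307.RT Pool.Agent.W262.SH

theorem desc5 : DESC5 := Pool.Agent.W839.SH.desc5 Pool.Agent.W131.SH.good2

theorem sh1 : SH1 := Pool.Agent.W334.SH.sh1 Pool.Agent.W262.SH.kum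
  (Pool.Agent.W782.SH.locx Pool.Agent.W333.SH.dup)

theorem sh2 : SH2 := Pool.Agent.W338.SH.sh2 Pool.Agent.W177.SH.div

theorem avgs : AVGS :=
  avgs_of (sel2_of locmS desc5)
    (Pool.Agent.W29.RT.cnt2_of Pool.Agent.W340.RT.SVR2.svr2 Pool.Agent.W216.RT.AVH.avh)
    (Pool.Agent.W45.RT.ant_of Pool.Agent.W405.RK2.rs Pool.Agent.W591.RK2.rv
      Pool.Agent.W591.RK2.ru Pool.Agent.W358.RK2.gr)

theorem box4S : ∃ C : ℝ, 0 ≤ C ∧ ∀ T : ℕ, 1 ≤ T → ∑ t ∈ (Box T).filter (fun t : ℤ × ℤ =>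
      IsCoprime t.1 t.2 ∧ M4 t.1 t.2 ≠ 0 ∧ N4 t.1 t.2 ≠ 0 ∧ M4 t.1 t.2 ≠ N4 t.1 t.2),
      ((SelS (-(M4 t.1 t.2)) (-(N4 t.1 t.2))).ncard : ℝ) ≤ C * (T : ℝ) ^ 2 := by
  refine famS avgs c4 (fun _ => -1) m4 α4 β4 (by decide) (by decide) (by decide) (by decide)
    (by decide) (by decide) (fun j => ?_) (fun u v => ?_) nb4 2 M4 N4 FM40 FM41
  · revert j
    decide
  · rw [FM40, FM41, FM42]
    ring

theorem box6S : ∃ C : ℝ, 0 ≤ C ∧ ∀ T : ℕ, 1 ≤ T → ∑ t ∈ (Box T).filter (fun t : ℤ × ℤ =>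
      IsCoprime t.1 t.2 ∧ M6 t.1 t.2 ≠ 0 ∧ N6 t.1 t.2 ≠ 0 ∧ M6 t.1 t.2 ≠ N6 t.1 t.2),
      ((SelS (-(M6 t.1 t.2)) (-(N6 t.1 t.2))).ncard : ℝ) ≤ C * (T : ℝ) ^ 2 := by
  refine famS avgs c6 (fun _ => -1) m6 α6 β6 (by decide) (by decide) (by decide) (by decide)
    (by decide) (by decide) (fun j => Or.inl (by revert j; decide)) (fun u v => ?_) ?_ 3 M6 N6
    (fun u v => by rw [FM60]; norm_num) (fun u v => by rw [FM61]; norm_num)
  · rw [FM60, FM61, FM62]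
    ring
  · exact ma4 Pool.Agent.W762.RK2.exp4 Pool.Agent.W125.RK2.comb4 c6 _ 2 _ (by decide)
      (fun j _ => by revert j; decide)

theorem main4S : ∃ C : ℝ, ∀ H : ℕ, ∑ c ∈ Cv 4 H, wtW (Sh c.1 c.2) ≤ C * (Cv 4 H).card :=
  finalS_of (by norm_num) parv4 Pool.Agent.W29.RT.low4
    (fun _ _ hA hB hAB => wt_le desc5 sh1 sh2 hA hB hAB) box4S

theorem main6S : ∃ C : ℝ, ∀ H : ℕ, ∑ c ∈ Cv 6 H, wtW (Sh c.1 c.2) ≤ C * (Cv 6 H).card :=
  finalS_of (by norm_num) parv6 Pool.Agent.W376.RTL.low6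
    (fun _ _ hA hB hAB => wt_le desc5 sh1 sh2 hA hB hAB) box6S

open scoped Classical in
/-- the `2`-torsion of the Tate-Shafarevich group of these curves is finite -/
theorem finSha {m k : ℕ} {M N : ℤ → ℤ → ℤ} (hP : PARV m k M N) {H : ℕ} {c : ℤ × ℤ}
    (hc : c ∈ Cv m H) : Finite {x : Sha (Sh c.1 c.2) // x + x = 0} := by
  obtain ⟨_, F, hF⟩ := hP
  obtain ⟨_, b1, b2, b3, _, _, u, r, h⟩ := (hF H).2 c hc
  have hA := neg_ne_zero.2 b1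
  have hB := neg_ne_zero.2 b2
  have hAB : -(M (F c).1 (F c).2) ≠ -(N (F c).1 (F c).2) := fun e => b3 (neg_injective e)
  have h1 := (sh1 _ _ hA hB hAB (selS_finite desc5 hA hB hAB)).1
  have h2 := (sh2 _ _ hA hB hAB h1).1
  obtain ⟨e⟩ := h.two_equiv
  exact Finite.of_equiv _ e

end Pool.Agent.H905.SH
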