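import Pool.Graph.R_seed8.W571.RT.LocM
import Pool.Graph.R_seed8.W131.SH.Locl2

/-! The local conditions with multiplicities for points over the `p`-adic numbers. The proof follows
`locm` of `Pool.Graph.R_seed8.W571.RT.LocM`, for rational points. -/

set_option autoImplicit false

namespace Pool.Agent.H905.SH

open Pool.Agent.W262.RK Pool.Agent.W22.RK Pool.Agent.W342.RK2 Pool.Agent.W307.RT
open Pool.Agent.W571.RT Pool.Agent.W131.SH Pool.Agent.W262.SH

/-- the local conditions hold for the local points, with multiplicities -/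
def LOCMS : Prop := ∀ (c : Fin 4) (κ : ℤ) (p : ℕ) [Fact p.Prime] (A B : ℤ), c ≠ 3 → p ≠ 2 →
  ¬ (p : ℤ) ∣ κ → A ≠ 0 → B ≠ 0 → A ≠ B → LocM c κ p A B →
  ∀ e1 e2 : ℤ, Squarefree e1 → Squarefree e2 → LocSol p A B e1 e2 →
    LL c (fun _ => κ) false p (dv p e1) (dv p e2) (sgn p e1) (sgn p e2)

section loc

variable {p : ℕ} [hp : Fact p.Prime]

/-- the main local computation -/
lemma locgS (hp2 : p ≠ 2) {A B : ℤ} (hA : (p : ℤ) ∣ A) (hB : ¬ (p : ℤ) ∣ B) (hA0 : A ≠ 0)
    (H : Odd (padicValInt p A) ∨ IsSquare (((-B : ℤ) : ℚ) : ℚ_[p])) (x : ℚ) (y : ℚ_[p])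
    (hy : y ≠ 0) (hxy : y ^ 2 = ((x * (x - A) * (x - B) : ℚ) : ℚ_[p])) :
    (Even (padicValRat p x) → IsSquare ((x - B : ℚ) : ℚ_[p])) ∧
    (¬ Even (padicValRat p x) → IsSquare ((-B * (x - B) : ℚ) : ℚ_[p])) := by
  have hy2 : y ^ 2 ≠ 0 := pow_ne_zero 2 hy
  rw [hxy] at hy2
  replace hy2 : x * (x - A) * (x - B) ≠ 0 := fun h => hy2 (by rw [h, Rat.cast_zero])
  have hx : x ≠ 0 := left_ne_zero_of_mul (left_ne_zero_of_mul hy2)
  have hxA : x - A ≠ 0 := right_ne_zero_of_mul (left_ne_zero_of_mul hy2)
  have hxB : x - B ≠ 0 := right_ne_zero_of_mul hy2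
  have hAq : (A : ℚ) ≠ 0 := by exact_mod_cast hA0
  have hnB : ¬ (p : ℤ) ∣ -B := not_dvd_neg hB
  have hBq : (-B : ℚ) ≠ 0 := by
    intro h
    apply hB
    have : B = 0 := by
      have : (B : ℚ) = 0 := by linarith
      exact_mod_cast this
    simp [this]
  have vA : padicValRat p (A : ℚ) = (padicValInt p A : ℤ) := padicValRat.of_int
  have vA1 : 1 ≤ padicValInt p A := by
    have := (padicValInt_dvd_iff (p := p) 1 A).1 (by simpa using hA)
    rcases this with h12 | h12
    · exact absurd h12 hA0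
    · exact h12
  have vB : padicValRat p (-B : ℚ) = 0 := by
    have := v_int (p := p) hnB
    push_cast at this
    exact this
  -- x - A ~ x if v x < v A
  have key1 : padicValRat p x < (padicValInt p A : ℤ) → IsSquare (((x - A) * x : ℚ) : ℚ_[p]) := by
    intro h
    apply near hp2 hx
    right
    have e : x - (A : ℚ) - x = -(A : ℚ) := by ring
    rw [e, v_neg, vA]
    exact h
  -- then x - B is a square
  have key2 : padicValRat p x < (padicValInt p A : ℤ) → IsSquare ((x - B : ℚ) : ℚ_[p]) := by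
    intro h
    apply sq_div (mul_ne_zero hxA hx) _ (key1 h)
    refine ⟨y, ?_⟩
    rw [← pow_two, hxy]
    congr 1
    ring
  have key3 : 0 < padicValRat p x → IsSquare (((x - B) * -B : ℚ) : ℚ_[p]) := by
    intro h
    apply near hp2 hBq
    right
    have e : x - (B : ℚ) - -(B : ℚ) = x := by ring
    rw [e, vB]
    exact h
  rcases lt_trichotomy (padicValRat p x) 0 with h | h | h
  · have h1 := key1 (by omega)
    have h2 : IsSquare (((x - B) * x : ℚ) : ℚ_[p]) := by
      apply near hp2 hx
      right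
      have e : x - (B : ℚ) - x = (-B : ℚ) := by ring
      rw [e, vB]
      exact h
    have h3 : IsSquare ((x : ℚ) : ℚ_[p]) := by
      apply sq_cancel hx
      exact third' (b := x) (y := y) hxA hxB hx hx (by rw [hxy]; congr 1; ring) h1 h2
    have h4 := val_sq hx h3
    exact ⟨fun _ => key2 (by omega), fun h5 => absurd h4 h5⟩
  · refine ⟨fun _ => key2 (by omega), fun h5 => absurd ?_ h5⟩
    rw [h]
    exact Even.zero
  · refine ⟨fun hev => ?_, fun _ => by rw [mul_comm]; exact key3 h⟩
    rcases H with H | H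
    · rcases lt_trichotomy (padicValRat p x) (padicValInt p A : ℤ) with h1 | h1 | h1
      · exact key2 h1
      · exfalso
        rw [h1] at hev
        have : Even (padicValInt p A) := by exact_mod_cast hev
        exact (Nat.not_even_iff_odd.2 H) this
      · exfalso
        have e1 : padicValRat p (x - A) = (padicValInt p A : ℤ) := by
          have := v_add (p := p) (a := -(A : ℚ)) (b := x) (neg_ne_zero.2 hAq) hx
            (by rw [neg_add_eq_sub]; exact hxA) (by rw [v_neg, vA]; exact h1)
          rw [neg_add_eq_sub, v_neg, vA] at this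
          exact this
        have e2 : padicValRat p (x - B) = 0 := by
          have := v_add (p := p) (a := -(B : ℚ)) (b := x) hBq hx
            (by rw [neg_add_eq_sub]; exact hxB) (by rw [vB]; exact h)
          rw [neg_add_eq_sub, vB] at this
          exact this
        have hsum := v_mul3' (p := p) hx hxA hxB hxy
        rw [e1, e2] at hsum
        obtain ⟨k, hk⟩ := hev
        obtain ⟨m, hm⟩ := H
        omega
    · have H' : IsSquare (((-B : ℚ)) : ℚ_[p]) := by
        push_cast at H ⊢
        exact H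
      exact sq_div hBq (key3 h) H'

end loc

theorem locmS : LOCMS := by
  intro c κ p hpf A B hc3 hp2 hκ hA0 hB0 hAB0 hL e1 e2 he1 he2 hls
  obtain ⟨x, hx, hxA, hxB, hs1, hs2, hs3⟩ := hls
  replace hxA : x - A ≠ 0 := sub_ne_zero.2 hxA
  replace hxB : x - B ≠ 0 := sub_ne_zero.2 hxB
  have hq1 := not_sq_of_squarefree (p := p) he1
  have hq2 := not_sq_of_squarefree (p := p) he2
  have he10 : e1 ≠ 0 := by rintro rfl; exact hq1 (dvd_zero _)
  have he20 : e2 ≠ 0 := by rintro rfl; exact hq2 (dvd_zero _)
  obtain ⟨y, hy, hxy⟩ := exists_y (p := p) hx hxA hxB (Int.cast_ne_zero.2 he10)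
    (Int.cast_ne_zero.2 he20) hs1 hs2 hs3
  have hthird := hs3
  unfold LocM at hL
  unfold LL
  by_cases c0 : c = 0
  · -- class 0
    rw [if_pos c0] at hL ⊢
    obtain ⟨hA, hB, hj, hodd⟩ := hL
    obtain ⟨hsq1, hsq2⟩ := locgS hp2 hA hB hA0
      (hodd.imp_right (jac_split hp2 hκ (not_dvd_neg hB) hj)) x y hy hxy
    have hxBc : ((x - B : ℚ) : ℚ_[p]) ≠ 0 := by exact_mod_cast hxB
    have hnB : ¬ (p : ℤ) ∣ -B := not_dvd_neg hB
    by_cases hev : Even (padicValRat p x)
    · have hv := (par hx hq1 hs1).1 hev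
      have h1 : IsSquare ((e1 * e2 : ℚ) : ℚ_[p]) := by
        obtain ⟨u, hu⟩ := hthird
        obtain ⟨w, hw⟩ := hsq1 hev
        refine ⟨u / w, ?_⟩
        have hw0 : w ≠ 0 := by
          rintro rfl
          rw [mul_zero] at hw
          exact hxBc hw
        field_simp
        rw [pow_two, pow_two, ← hu, ← hw]
        push_cast
        ring
      obtain ⟨k1, k2⟩ := cmp hq1 hq2 h1
      refine ⟨k1, ?_⟩
      rw [hv, k2]
      simp
    · have hv : dv p e1 = true := by
        have := mt (par hx hq1 hs1).2 hev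
        simpa using this
      have h1 : IsSquare ((e1 * ((e2 * -B : ℤ) : ℚ) : ℚ) : ℚ_[p]) := by
        obtain ⟨u, hu⟩ := hthird
        obtain ⟨w, hw⟩ := hsq2 hev
        have hBc : ((B : ℤ) : ℚ_[p]) ≠ 0 := by
          intro h
          apply hB
          have : B = 0 := by exact_mod_cast h
          simp [this]
        push_cast at hw hu hxBc
        refine ⟨u * w / (x - B), ?_⟩
        have : u * w / ((x : ℚ_[p]) - B) * (u * w / (x - B)) =
            (u * u) * (w * w) / ((x - B) * (x - B)) := by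
          rw [div_mul_div_comm]
          ring
        rw [this, ← hu, ← hw]
        push_cast
        field_simp
      obtain ⟨k1, k2⟩ := cmp hq1 (not_sq_mul_unit hq2 hnB) h1
      rw [dv_mul_unit hnB] at k1
      rw [sgn_mul_unit hq2 hnB] at k2
      have k3 := sg0_eq_false hj
      rw [sg0_mul hκ hnB] at k3
      refine ⟨k1, ?_⟩
      rw [k2, hv]
      revert k3
      generalize sg0 p κ = s
      generalize sg0 p (-B) = t
      generalize sgn p e2 = r
      revert s t r
      decide
  rw [if_neg c0] at hL ⊢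
  by_cases c1 : c = 1
  · -- class 1
    rw [if_pos c1] at hL ⊢
    obtain ⟨hB, hA, hj, hodd⟩ := hL
    obtain ⟨hsq1, hsq2⟩ := locgS hp2 hB hA hB0
      (hodd.imp_right (jac_split hp2 hκ (not_dvd_neg hA) hj)) x y hy (by rw [hxy]; congr 1; ring)
    have hnA : ¬ (p : ℤ) ∣ -A := not_dvd_neg hA
    by_cases hev : Even (padicValRat p x)
    · have hv := (par hx hq1 hs1).1 hev
      have h1 : IsSquare (((x - A) * ((1 : ℤ) : ℚ) : ℚ) : ℚ_[p]) := by
        have := hsq1 hev
        push_cast at this ⊢
        rwa [mul_one]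
      obtain ⟨k1, k2⟩ := cmpx hxA hq2 (not_sq_of_unit not_dvd_one) hs2 h1
      rw [dv_unit not_dvd_one] at k1
      rw [sgn_unit not_dvd_one, sg0_one] at k2
      exact ⟨k1, by rw [k2, hv]; simp⟩
    · have hv : dv p e1 = true := by
        have := mt (par hx hq1 hs1).2 hev
        simpa using this
      have h1 : IsSquare (((x - A) * ((-A : ℤ) : ℚ) : ℚ) : ℚ_[p]) := by
        have := hsq2 hev
        rw [mul_comm] at this
        push_cast at this ⊢
        exact this
      obtain ⟨k1, k2⟩ := cmpx hxA hq2 (not_sq_of_unit hnA) hs2 h1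
      rw [dv_unit hnA] at k1
      rw [sgn_unit hnA] at k2
      have k3 := sg0_eq_false hj
      rw [sg0_mul hκ hnA] at k3
      refine ⟨k1, ?_⟩
      rw [k2, hv]
      revert k3
      generalize sg0 p κ = s
      generalize sg0 p (-A) = t
      revert s t
      decide
  rw [if_neg c1] at hL ⊢
  by_cases c2 : c = 2
  · -- class 2
    rw [if_pos c2]
    obtain ⟨hC, hA, hj, hodd⟩ := hL
    have hC' : (p : ℤ) ∣ B - A := by rw [← neg_sub]; exact hC.neg_right
    have hnA : ¬ (p : ℤ) ∣ -A := not_dvd_neg hA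
    have hvv : padicValInt p (B - A) = padicValInt p (A - B) := by
      unfold padicValInt
      rw [← neg_sub, Int.natAbs_neg]
    obtain ⟨hsq1, hsq2⟩ := locgS hp2 hC' hnA (sub_ne_zero.2 (Ne.symm hAB0))
      (by
        rw [hvv, neg_neg]
        exact hodd.imp_right (jac_split hp2 hκ hA hj)) (x - A) y hy
      (by rw [hxy]; congr 1; push_cast; ring)
    by_cases hev : Even (padicValRat p (x - A))
    · have hv := (par hxA hq2 hs2).1 hev
      have h1 : IsSquare ((x * ((1 : ℤ) : ℚ) : ℚ) : ℚ_[p]) := by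
        have := hsq1 hev
        push_cast at this ⊢
        rw [mul_one]
        convert this using 1
        ring
      obtain ⟨k1, k2⟩ := cmpx hx hq1 (not_sq_of_unit not_dvd_one) hs1 h1
      rw [dv_unit not_dvd_one] at k1
      rw [sgn_unit not_dvd_one, sg0_one] at k2
      exact ⟨k1, by rw [k2, hv]; simp⟩
    · have hv : dv p e2 = true := by
        have := mt (par hxA hq2 hs2).2 hev
        simpa using this
      have h1 : IsSquare ((x * (A : ℚ) : ℚ) : ℚ_[p]) := by
        have := hsq2 hev
        push_cast at this ⊢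
        convert this using 1
        ring
      obtain ⟨k1, k2⟩ := cmpx hx hq1 (not_sq_of_unit hA) hs1 h1
      rw [dv_unit hA] at k1
      rw [sgn_unit hA] at k2
      have k3 := sg0_eq_false hj
      rw [sg0_mul hκ hA] at k3
      refine ⟨k1, ?_⟩
      rw [k2, hv]
      revert k3
      generalize sg0 p κ = s
      generalize sg0 p A = t
      revert s t
      decide
  exfalso
  have h4 : ∀ c : Fin 4, c = 0 ∨ c = 1 ∨ c = 2 ∨ c = 3 := by decide
  rcases h4 c with h5 | h5 | h5 | h5
  · exact c0 h5
  · exact c1 h5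
  · exact c2 h5
  · exact hc3 h5

end Pool.Agent.H905.SH
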