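import Pool.Graph.R_seed8.W571.RT.Rank2
import Pool.Agent.H905.SH.LocS

/-! The bound of the number of the Selmer pairs by the local count, with multiplicities. The proof
follows `rank2_of` of `Pool.Graph.R_seed8.W571.RT.Rank2`. -/

set_option autoImplicit false

namespace Pool.Agent.H905.SH

open Finset Pool.Agent.W262.RK Pool.Agent.W307.RT Pool.Agent.W571.RT Pool.Agent.W262.SH

/-- SEL2: the bound of the number of the Selmer pairs by the local count at a point `(u, v)`. -/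
def SEL2 : Prop := ∀ (J : Type) [Fintype J] [DecidableEq J] (cls : J → Fin 4) (a : Fin 3 → ℤ)
  (μ : J → ℕ) (α β : J → ℤ) (z : ℕ), (∀ j, cls j ≠ 3) → (∀ k, a k ≠ 0) → (∀ j, 1 ≤ μ j) →
  Bg α β z → (∀ p : ℕ, p.Prime → z < p → ∀ k, ¬ (p : ℤ) ∣ a k) →
  (∀ k, Even (∑ l ∈ fc cls k, μ l)) → (∀ j, kapM cls a μ α β j ≠ 0) →
  (∀ j, (kapM cls a μ α β j).natAbs ≤ z) →
  (∀ j, Odd (μ j) ∨ IsSquare (kapM cls a μ α β j)) →
  (∀ u v : ℤ, FM cls a μ (fv α β u v) 0 - FM cls a μ (fv α β u v) 1 =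
    FM cls a μ (fv α β u v) 2) →
  ∀ (X y k : ℕ) (u v : ℤ), IsCoprime u v → (∀ j, fv α β u v j ≠ 0) →
  (∀ j, (fv α β u v j).natAbs ≤ X ^ 2) → 1 ≤ X → 1 ≤ y → X < (y + 1) ^ k →
    (SelS (FM cls a μ (fv α β u v) 0) (FM cls a μ (fv α β u v) 1)).Finite ∧
    (SelS (FM cls a μ (fv α β u v) 0) (FM cls a μ (fv α β u v) 1)).ncard ≤
      4 ^ (z + 2) * (16 ^ Fintype.card J) ^ k *
        4 ^ (∑ j, (S2 z y (fv α β u v) j).primeFactors.card) *
        NL (∏ j, S1 z y (fv α β u v) j)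
          (LLs cls (fun j _ => kapM cls a μ α β j) (S1 z y (fv α β u v)) ∅)

theorem sel2_of (hloc : LOCMS) (hdesc : DESC5) : SEL2 := by
  intro J _ _ cls a μ α β z hc3 ha0 hμ hB ha hev hκ0 hκ hodd hFF X y k u v huv h0 hb hX hy hk
  have hF := hFF u v
  set f := fv α β u v with hf
  have hFne : ∀ k, FM cls a μ f k ≠ 0 := fun k =>
    mul_ne_zero (ha0 k) (prod_ne_zero_iff.2 fun l _ => pow_ne_zero _ (h0 l))
  have hz2 : 2 ≤ z := by have := hB.1; omega
  set s := S1 z y f with hs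
  have hmem : s ∈ Tup J z y := S1_mem (fun p hp hzp j l hjl h =>
    fv_not_dvd hB hp hzp huv hjl h.1 h.2)
  have hmd : ∏ j, s j ∣ PP z y := Tup_prod_dvd hmem
  have hPSof : ∀ p : ℕ, p.Prime → p ∣ ∏ j, s j → p ∈ PS z y := fun p hp h =>
    (prime_dvd_PP hp).1 (h.trans hmd)
  have hnκ : ∀ p : ℕ, p.Prime → p ∣ ∏ j, s j → ∀ j, ¬ (p : ℤ) ∣ kapM cls a μ α β j := by
    intro p hp h j hd
    have h1 := (mem_PS.1 (hPSof p hp h)).1.1
    have h2 := Nat.le_of_dvd (Int.natAbs_pos.2 (hκ0 j)) (Int.natCast_dvd.1 hd)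
    have h3 := hκ j
    omega
  have hodd2 : ∀ p : ℕ, p.Prime → p ∣ ∏ j, s j → p ≠ 2 := by
    intro p hp h
    have h1 := (mem_PS.1 (hPSof p hp h)).1.1
    omega
  have hxc : XCL := Pool.Agent.W342.RK2.xcl
  have hd := hdesc (∏ j, s j) (LLs cls (fun j _ => kapM cls a μ α β j) s ∅)
    (FM cls a μ f 0) (FM cls a μ f 1) (hFne 0) (hFne 1)
    (fun h => hFne 2 (by rw [← hF, h, sub_self]))
    (by
      rw [← Nat.not_even_iff_odd, even_iff_two_dvd]
      intro h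
      exact hodd2 2 Nat.prime_two h rfl)
    ((PP_squarefree z y).squarefree_of_dvd hmd)
    (fun p hp hpd => ⟨fun j hj => (hxc _ _ _ p hp (hodd2 p hp hpd)
        (fun _ => hnκ p hp hpd j)).1,
      fun a1 b1 c1 d1 a2 b2 c2 d2 e1 e2 j hj =>
        (hxc _ _ _ p hp (hodd2 p hp hpd) (fun _ => hnκ p hp hpd j)).2 a1 b1 c1 d1 a2 b2 c2 d2
          (e1 j hj) (e2 j hj)⟩)
    (fun p hp hpd e1 e2 he1 he2 hls j hj => by
      have hpp : p.Prime := Fact.out
      have hjs := (S1_dvd_iff hpp).1 hj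
      have hzp := (mem_PS.1 hjs.1).1.1
      have hfin := hloc (cls j) (kapM cls a μ α β j) p (FM cls a μ f 0) (FM cls a μ f 1) (hc3 j)
        (hodd2 p hpp hpd) (hnκ p hpp hpd j) (hFne 0) (hFne 1)
        (fun h => hFne 2 (by rw [← hF, h, sub_self]))
        (locHM hB ha hev hμ hpp hzp huv hF (h0 j) hjs.2.1 hjs.2.2 (hc3 j) (hnκ p hpp hpd j)
          (hodd j)) e1 e2 he1 he2 hls
      have hdec : decide (p ∈ (∅ : Finset ℕ)) = false := by simp
      rw [hdec]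
      exact hfin)
  rw [hF] at hd
  refine ⟨hd.1, hd.2.trans (Nat.mul_le_mul_right _ ?_)⟩
  have hc := badM (cls := cls) (μ := μ) (y := y) hB ha hX hy h0 hb hk
  rw [← hf, ← hs] at hc
  calc 4 ^ (((2 * FM cls a μ f 0 * FM cls a μ f 1 *
        FM cls a μ f 2).natAbs.primeFactors.filter (fun q => ¬ q ∣ ∏ j, s j)).card + 2)
      ≤ 4 ^ ((z + 2) + (Fintype.card J * (2 * k)) + ∑ j, (S2 z y f j).primeFactors.card) :=
        Nat.pow_le_pow_right (by norm_num) (by omega)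
    _ = _ := by
        rw [pow_add, pow_add]
        congr 2
        rw [← pow_mul, show (16 : ℕ) = 4 ^ 2 by norm_num, ← pow_mul]
        congr 1
        ring

end Pool.Agent.H905.SH
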