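import Pool.Agent.H905.SH.Iso
import Pool.Graph.R_seed8.W262.SH.Stm
import Pool.Graph.R_seed8.W262.SH.Fam

/-! Changes of variables and the Tate-Shafarevich group. -/

set_option autoImplicit false

namespace Pool.Agent.H905.SH

open WeierstrassCurve Pool.Agent.W262.SH

open scoped Classical

variable {W W' : WeierstrassCurve ℚ} {u r : ℚ}

/-- the isomorphism on the points over `L` -/
noncomputable def VC.T (h : VC W W' u r) (L : Type) [Field L] [Algebra ℚ L] : Pt W' L ≃+ Pt W L :=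
  (h.base L).equiv

lemma VC.T_act (h : VC W W' u r) {F L : Type} [Field F] [Field L] [Algebra ℚ F] [Algebra ℚ L]
    (φ : F →ₐ[ℚ] L) (P : Pt W' F) : h.T L (act W' φ P) = act W φ (h.T F P) := by
  match P with
  | 0 =>
    show h.T L (act W' φ 0) = act W φ (h.T F 0)
    rw [map_zero, map_zero, map_zero, map_zero]
  | .some x y hn =>
    show (Affine.Point.some _ _ _ : Pt W L) = Affine.Point.some _ _ _
    rw [Affine.Point.some.injEq]
    constructor
    · simp only [map_add, map_mul, map_pow, AlgHom.commutes]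
    · simp only [map_mul, map_pow, AlgHom.commutes]

/-- locally trivial cocycles -/
lemma VC.loc_iff (h : VC W W' u r) (K : Type) [Field K] [Algebra ℚ K]
    (f : (QB ≃ₐ[ℚ] QB) → Pt W' QB) :
    LocTriv W' K f ↔ LocTriv W K (fun σ => h.T QB (f σ)) := by
  unfold LocTriv
  refine forall_congr' fun ι => ?_
  constructor
  · rintro ⟨P, hP⟩
    refine ⟨h.T _ P, fun τ σ hc => ?_⟩
    rw [← h.T_act, hP τ σ hc, map_sub, h.T_act]
  · rintro ⟨P, hP⟩
    obtain ⟨Q, rfl⟩ := (h.T _).surjective P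
    refine ⟨Q, fun τ σ hc => ?_⟩
    apply (h.T _).injective
    rw [map_sub, h.T_act, h.T_act]
    exact hP τ σ hc

lemma VC.coc_iff (h : VC W W' u r) (f : (QB ≃ₐ[ℚ] QB) → Pt W' QB) :
    IsCoc W' f ↔ IsCoc W (fun σ => h.T QB (f σ)) := by
  unfold IsCoc
  refine and_congr ⟨fun hf => ?_, fun hf => ?_⟩ ?_
  · exact hf.comp (h.T QB)
  · have := hf.comp (h.T QB).symm
    have e : ((h.T QB).symm ∘ fun σ => h.T QB (f σ)) = f := by
      funext σ
      simp
    rw [e] at this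
    exact this
  · refine forall_congr' fun σ => forall_congr' fun τ => ?_
    rw [← h.T_act, ← map_add]
    exact (h.T QB).injective.eq_iff.symm

lemma VC.cob_iff (h : VC W W' u r) (f : (QB ≃ₐ[ℚ] QB) → Pt W' QB) :
    IsCob W' f ↔ IsCob W (fun σ => h.T QB (f σ)) := by
  unfold IsCob
  constructor
  · rintro ⟨P, hP⟩
    refine ⟨h.T _ P, fun σ => ?_⟩
    show h.T QB (f σ) = _
    rw [← h.T_act, hP σ, map_sub]
  · rintro ⟨P, hP⟩
    obtain ⟨Q, rfl⟩ := (h.T _).surjective P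
    refine ⟨Q, fun σ => ?_⟩
    apply (h.T _).injective
    rw [map_sub, h.T_act]
    exact hP σ

/-- the isomorphism on the functions -/
noncomputable def VC.E0 (h : VC W W' u r) :
    ((QB ≃ₐ[ℚ] QB) → Pt W' QB) ≃+ ((QB ≃ₐ[ℚ] QB) → Pt W QB) :=
  AddEquiv.piCongrRight fun _ => h.T QB

lemma VC.mem_sha (h : VC W W' u r) (f : (QB ≃ₐ[ℚ] QB) → Pt W' QB) :
    f ∈ shaCoc W' ↔ h.E0 f ∈ shaCoc W := by
  show (IsCoc W' f ∧ (∀ (p : ℕ) [Fact p.Prime], LocTriv W' ℚ_[p] f) ∧ LocTriv W' ℝ f) ↔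
    (IsCoc W (fun σ => h.T QB (f σ)) ∧
      (∀ (p : ℕ) [Fact p.Prime], LocTriv W ℚ_[p] (fun σ => h.T QB (f σ))) ∧
      LocTriv W ℝ (fun σ => h.T QB (f σ)))
  rw [h.coc_iff, h.loc_iff ℝ]
  simp only [h.loc_iff]

lemma VC.mem_cob (h : VC W W' u r) (f : (QB ≃ₐ[ℚ] QB) → Pt W' QB) :
    f ∈ cob W' ↔ h.E0 f ∈ cob W := h.cob_iff f

/-- the isomorphism on the cocycles -/
noncomputable def VC.E1 (h : VC W W' u r) : shaCoc W' ≃+ shaCoc W where
  toFun x := ⟨h.E0 x.1, (h.mem_sha x.1).1 x.2⟩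
  invFun x := ⟨h.E0.symm x.1, (h.mem_sha _).2 (by rw [AddEquiv.apply_symm_apply]; exact x.2)⟩
  left_inv x := by ext1; simp
  right_inv x := by ext1; simp
  map_add' x y := by ext1; simp

/-- the isomorphism on the Tate-Shafarevich groups -/
noncomputable def VC.E2 (h : VC W W' u r) : Sha W' ≃+ Sha W :=
  QuotientAddGroup.congr _ _ h.E1 (by
    ext x
    rw [AddSubgroup.mem_map]
    constructor
    · rintro ⟨y, hy, rfl⟩
      rw [AddSubgroup.mem_addSubgroupOf] at hy ⊢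
      exact (h.mem_cob _).1 hy
    · intro hx
      refine ⟨h.E1.symm x, ?_, by simp⟩
      rw [AddSubgroup.mem_addSubgroupOf] at hx ⊢
      rw [h.mem_cob]
      have e : h.E0 ((h.E1.symm x : shaCoc W') : (QB ≃ₐ[ℚ] QB) → Pt W' QB) = x.1 := by
        have := congrArg Subtype.val (h.E1.apply_symm_apply x)
        exact this
      rw [e]
      exact hx)

/-- the `2`-torsion of the Tate-Shafarevich group is invariant -/
lemma VC.two_equiv (h : VC W W' u r) :
    Nonempty ({c : Sha W' // c + c = 0} ≃ {c : Sha W // c + c = 0}) :=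
  ⟨h.E2.toEquiv.subtypeEquiv fun c => by
    show c + c = 0 ↔ h.E2 c + h.E2 c = 0
    rw [← map_add]
    exact (AddEquiv.map_eq_zero_iff _).symm⟩

end Pool.Agent.H905.SH
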