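import Mathlib

/-! Changes of variables `x = u² x' + r`, `y = u³ y'` of Weierstrass curves with `a₁ = a₃ = 0`, over
arbitrary fields, and the groups of points. -/

set_option autoImplicit false

namespace Pool.Agent.H905.SH

open WeierstrassCurve

/-- `W'` is obtained from `W` by the change of variables `x = u² x' + r`, `y = u³ y'`. -/
structure VC {F : Type} [Field F] (W W' : WeierstrassCurve F) (u r : F) : Prop where
  hu : u ≠ 0
  a1 : W.a₁ = 0
  a3 : W.a₃ = 0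
  b1 : W'.a₁ = 0
  b3 : W'.a₃ = 0
  h2 : u ^ 2 * W'.a₂ = W.a₂ + 3 * r
  h4 : u ^ 4 * W'.a₄ = W.a₄ + 2 * r * W.a₂ + 3 * r ^ 2
  h6 : u ^ 6 * W'.a₆ = W.a₆ + r * W.a₄ + r ^ 2 * W.a₂ + r ^ 3

section pt

variable {F : Type} [Field F] {W W' : WeierstrassCurve F} {u r : F}

lemma VC.eqn (h : VC W W' u r) (x y : F) :
    W.toAffine.Equation (u ^ 2 * x + r) (u ^ 3 * y) ↔ W'.toAffine.Equation x y := by
  rw [Affine.equation_iff, Affine.equation_iff, h.a1, h.a3, h.b1, h.b3]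
  have hu6 : u ^ 6 ≠ 0 := pow_ne_zero _ h.hu
  constructor
  · intro e
    apply mul_left_cancel₀ hu6
    linear_combination e - u ^ 4 * x ^ 2 * h.h2 - u ^ 2 * x * h.h4 - h.h6
  · intro e
    linear_combination u ^ 6 * e + u ^ 4 * x ^ 2 * h.h2 + u ^ 2 * x * h.h4 + h.h6

lemma VC.ns (h : VC W W' u r) (x y : F) :
    W.toAffine.Nonsingular (u ^ 2 * x + r) (u ^ 3 * y) ↔ W'.toAffine.Nonsingular x y := by
  rw [Affine.nonsingular_iff, Affine.nonsingular_iff, h.eqn, h.a1, h.a3, h.b1, h.b3]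
  have hu4 : u ^ 4 ≠ 0 := pow_ne_zero _ h.hu
  have hu3 : u ^ 3 ≠ 0 := pow_ne_zero _ h.hu
  have e1 : 3 * (u ^ 2 * x + r) ^ 2 + 2 * W.a₂ * (u ^ 2 * x + r) + W.a₄ =
      u ^ 4 * (3 * x ^ 2 + 2 * W'.a₂ * x + W'.a₄) := by
    linear_combination -(2 * u ^ 2 * x) * h.h2 - h.h4
  have e2 : (0 * (u ^ 3 * y) ≠ 3 * (u ^ 2 * x + r) ^ 2 + 2 * W.a₂ * (u ^ 2 * x + r) + W.a₄) ↔
      (0 * y ≠ 3 * x ^ 2 + 2 * W'.a₂ * x + W'.a₄) := by
    rw [e1, zero_mul, zero_mul, ne_comm, ne_comm (a := (0 : F))]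
    exact mul_ne_zero_iff.trans (and_iff_right hu4)
  have e3 : (u ^ 3 * y ≠ -(u ^ 3 * y) - 0 * (u ^ 2 * x + r) - 0) ↔ (y ≠ -y - 0 * x - 0) := by
    simp only [zero_mul, sub_zero]
    rw [← mul_neg]
    exact not_congr (mul_right_inj' hu3)
  rw [e2, e3]

lemma VC.negY (h : VC W W' u r) (x y : F) : W.toAffine.negY (u ^ 2 * x + r) (u ^ 3 * y) =
    u ^ 3 * W'.toAffine.negY x y := by
  simp only [Affine.negY, h.a1, h.a3, h.b1, h.b3]
  ring

variable [DecidableEq F]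

lemma VC.slope (h : VC W W' u r) (x₁ x₂ y₁ y₂ : F) :
    W.toAffine.slope (u ^ 2 * x₁ + r) (u ^ 2 * x₂ + r) (u ^ 3 * y₁) (u ^ 3 * y₂) =
      u * W'.toAffine.slope x₁ x₂ y₁ y₂ := by
  have hu0 := h.hu
  have hu3 : u ^ 3 ≠ 0 := pow_ne_zero _ h.hu
  have hu2 : u ^ 2 ≠ 0 := pow_ne_zero _ h.hu
  by_cases hx : x₁ = x₂
  · by_cases hy : y₁ = W'.toAffine.negY x₂ y₂
    · rw [Affine.slope_of_Y_eq hx hy, Affine.slope_of_Y_eq (by rw [hx]) (by rw [h.negY, hy]),
        mul_zero]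
    · have hy' : u ^ 3 * y₁ ≠ W.toAffine.negY (u ^ 2 * x₂ + r) (u ^ 3 * y₂) := by
        rw [h.negY]
        exact fun h => hy ((mul_right_inj' hu3).1 h)
      rw [Affine.slope_of_Y_ne hx hy, Affine.slope_of_Y_ne (by rw [hx]) hy', h.negY]
      rw [h.a1, h.b1]
      have e1 : 3 * (u ^ 2 * x₁ + r) ^ 2 + 2 * W.a₂ * (u ^ 2 * x₁ + r) + W.a₄ - 0 * (u ^ 3 * y₁) =
          u ^ 4 * (3 * x₁ ^ 2 + 2 * W'.a₂ * x₁ + W'.a₄ - 0 * y₁) := by
        linear_combination -(2 * u ^ 2 * x₁) * h.h2 - h.h4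
      rw [e1, ← mul_sub, show u ^ 4 = u ^ 3 * u by ring, mul_assoc, mul_div_mul_left _ _ hu3,
        mul_div_assoc]
  · have hx' : u ^ 2 * x₁ + r ≠ u ^ 2 * x₂ + r := by
      intro h
      exact hx ((mul_right_inj' hu2).1 (add_right_cancel h))
    rw [Affine.slope_of_X_ne hx, Affine.slope_of_X_ne hx']
    have h1 : x₁ - x₂ ≠ 0 := sub_ne_zero.2 hx
    have e1 : u ^ 2 * x₁ + r - (u ^ 2 * x₂ + r) = u ^ 2 * (x₁ - x₂) := by ring
    rw [e1, ← mul_sub]
    field_simp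

omit [DecidableEq F] in
lemma VC.addX (h : VC W W' u r) (x₁ x₂ l : F) :
    W.toAffine.addX (u ^ 2 * x₁ + r) (u ^ 2 * x₂ + r) (u * l) =
      u ^ 2 * W'.toAffine.addX x₁ x₂ l + r := by
  simp only [Affine.addX, h.a1, h.b1]
  linear_combination h.h2

omit [DecidableEq F] in
lemma VC.addY (h : VC W W' u r) (x₁ x₂ y₁ l : F) :
    W.toAffine.addY (u ^ 2 * x₁ + r) (u ^ 2 * x₂ + r) (u ^ 3 * y₁) (u * l) =
      u ^ 3 * W'.toAffine.addY x₁ x₂ y₁ l := by
  simp only [Affine.addY, Affine.negAddY, Affine.negY, Affine.addX, h.a1, h.b1, h.a3, h.b3]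
  linear_combination (-(u * l)) * h.h2

omit [DecidableEq F] in
/-- the map on points -/
def VC.toF (h : VC W W' u r) : W'.toAffine.Point → W.toAffine.Point
  | 0 => 0
  | .some x y hn => .some (u ^ 2 * x + r) (u ^ 3 * y) ((h.ns x y).2 hn)

omit [DecidableEq F] in
lemma VC.toF_zero (h : VC W W' u r) : h.toF 0 = 0 := rfl

omit [DecidableEq F] in
lemma VC.toF_some (h : VC W W' u r) (x y : F) (hn : W'.toAffine.Nonsingular x y) :
    h.toF (.some x y hn) = .some (u ^ 2 * x + r) (u ^ 3 * y) ((h.ns x y).2 hn) := rfl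

lemma VC.toF_add (h : VC W W' u r) (P Q : W'.toAffine.Point) :
    h.toF (P + Q) = h.toF P + h.toF Q := by
  have hu3 : u ^ 3 ≠ 0 := pow_ne_zero _ h.hu
  have hu2 : u ^ 2 ≠ 0 := pow_ne_zero _ h.hu
  match P, Q with
  | 0, Q => rw [zero_add, toF_zero, zero_add]
  | .some x y _, 0 => rw [add_zero, toF_zero, add_zero]
  | .some x₁ y₁ h₁, .some x₂ y₂ h₂ =>
    rw [toF_some, toF_some]
    by_cases hxy : x₁ = x₂ ∧ y₁ = W'.toAffine.negY x₂ y₂
    · rw [Affine.Point.add_of_Y_eq hxy.1 hxy.2,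
        Affine.Point.add_of_Y_eq (by rw [hxy.1]) (by rw [hxy.2, h.negY]), toF_zero]
    · have hxy' : ¬ (u ^ 2 * x₁ + r = u ^ 2 * x₂ + r ∧
          u ^ 3 * y₁ = W.toAffine.negY (u ^ 2 * x₂ + r) (u ^ 3 * y₂)) := by
        rintro ⟨q1, q2⟩
        apply hxy
        refine ⟨(mul_right_inj' hu2).1 (add_right_cancel q1), ?_⟩
        rw [h.negY] at q2
        exact (mul_right_inj' hu3).1 q2
      rw [Affine.Point.add_some hxy, Affine.Point.add_some hxy', toF_some]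
      rw [Affine.Point.some.injEq, h.slope, h.addX, h.addY]
      exact ⟨rfl, rfl⟩

omit [DecidableEq F] in
lemma VC.toF_inj (h : VC W W' u r) : Function.Injective h.toF := by
  have hu3 : u ^ 3 ≠ 0 := pow_ne_zero _ h.hu
  have hu2 : u ^ 2 ≠ 0 := pow_ne_zero _ h.hu
  intro P Q hPQ
  match P, Q with
  | 0, 0 => rfl
  | 0, .some x y _ =>
    rw [toF_some, toF_zero] at hPQ
    exact absurd hPQ.symm (Affine.Point.some_ne_zero _)
  | .some x y _, 0 =>
    rw [toF_some, toF_zero] at hPQ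
    exact absurd hPQ (Affine.Point.some_ne_zero _)
  | .some x₁ y₁ h₁, .some x₂ y₂ h₂ =>
    rw [toF_some, toF_some, Affine.Point.some.injEq] at hPQ
    rw [Affine.Point.some.injEq]
    exact ⟨(mul_right_inj' hu2).1 (add_right_cancel hPQ.1), (mul_right_inj' hu3).1 hPQ.2⟩

omit [DecidableEq F] in
lemma VC.toF_surj (h : VC W W' u r) : Function.Surjective h.toF := by
  have hu0 := h.hu
  intro Q
  match Q with
  | 0 => exact ⟨0, rfl⟩
  | .some x y hn =>
    have ex : u ^ 2 * ((x - r) / u ^ 2) + r = x := by field_simp; ring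
    have ey : u ^ 3 * (y / u ^ 3) = y := by field_simp
    have h' : W'.toAffine.Nonsingular ((x - r) / u ^ 2) (y / u ^ 3) := by
      rw [← h.ns, ex, ey]
      exact hn
    refine ⟨.some ((x - r) / u ^ 2) (y / u ^ 3) h', ?_⟩
    rw [toF_some, Affine.Point.some.injEq]
    exact ⟨ex, ey⟩

/-- the isomorphism of the groups of points -/
noncomputable def VC.equiv (h : VC W W' u r) : W'.toAffine.Point ≃+ W.toAffine.Point :=
  AddEquiv.ofBijective (⟨⟨h.toF, h.toF_zero⟩, h.toF_add⟩ :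
    W'.toAffine.Point →+ W.toAffine.Point) ⟨h.toF_inj, h.toF_surj⟩

lemma VC.equiv_zero (h : VC W W' u r) : h.equiv 0 = 0 := rfl

lemma VC.equiv_some (h : VC W W' u r) (x y : F) (hn : W'.toAffine.Nonsingular x y) :
    h.equiv (.some x y hn) = .some (u ^ 2 * x + r) (u ^ 3 * y) ((h.ns x y).2 hn) := rfl

end pt

/-- change of variables and base change -/
lemma VC.base {W W' : WeierstrassCurve ℚ} {u r : ℚ} (h : VC W W' u r) (L : Type) [Field L]
    [Algebra ℚ L] : VC (W.baseChange L) (W'.baseChange L) (algebraMap ℚ L u) (algebraMap ℚ L r) := by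
  refine ⟨?_, ?_, ?_, ?_, ?_, ?_, ?_, ?_⟩
  · exact (map_ne_zero _).2 h.hu
  · show algebraMap ℚ L W.a₁ = 0
    rw [h.a1, map_zero]
  · show algebraMap ℚ L W.a₃ = 0
    rw [h.a3, map_zero]
  · show algebraMap ℚ L W'.a₁ = 0
    rw [h.b1, map_zero]
  · show algebraMap ℚ L W'.a₃ = 0
    rw [h.b3, map_zero]
  · have := congrArg (algebraMap ℚ L) h.h2
    simp only [map_mul, map_pow, map_add, map_ofNat] at this
    exact this
  · have := congrArg (algebraMap ℚ L) h.h4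
    simp only [map_mul, map_pow, map_add, map_ofNat] at this
    exact this
  · have := congrArg (algebraMap ℚ L) h.h6
    simp only [map_mul, map_pow, map_add] at this
    exact this

end Pool.Agent.H905.SH
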