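import Pool.Graph.R_seed8.W135.RT.Par6
import Pool.Graph.R_seed8.W605.RT.PAR4
import Pool.Agent.H905.SH.FamS

/-! The parametrisations of the curves, with the changes of variables. The proofs follow
`Pool.Graph.R_seed8.W135.RT.Par6` and `Pool.Graph.R_seed8.W605.RT.PAR4`. -/

set_option autoImplicit false

namespace Pool.Agent.H905.SH

open Pool.Agent.W307.RT Pool.Agent.W262.RK WeierstrassCurve.Affine Pool.Agent.W262.SH

section six

open Pool.Agent.W135.RT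

theorem vc6 {A B u v : ℤ} {s : ℚ} (hR : R6 A B u v s) :
    ∃ w r : ℚ, VC (Sh A B) (E (-(M6 u v)) (-(N6 u v))) w r := by
  refine ⟨s, s ^ 2 * ((M6 u v : ℚ) + N6 u v) / 3, hR.s0, rfl, rfl, rfl, rfl, ?_, ?_, ?_⟩
  · simp only [E, Sh]
    push_cast
    ring
  · simp only [E, Sh]
    push_cast
    linear_combination -(1 / 3) * hR.ea
  · simp only [E, Sh]
    push_cast
    linear_combination -(1 / 27) * hR.eb - (1 / 9) * s ^ 2 * ((M6 u v : ℚ) + N6 u v) * hR.ea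

theorem parv6 : PARV 6 24 M6 N6 := by
  refine ⟨147456 ^ 3, FF, fun H => ⟨?_, ?_⟩⟩
  · intro c hc c' hc' hcc
    obtain ⟨s, hR⟩ := FF_spec hc
    obtain ⟨s', hR'⟩ := FF_spec hc'
    rw [← hcc] at hR'
    have hc1 := memCv (Finset.mem_coe.mp hc)
    have hc1' := memCv (Finset.mem_coe.mp hc')
    obtain ⟨h1, h2⟩ := inj hR hR' hc1.2.2.2.1 hc1'.2.2.2.1
    exact Prod.ext h1 h2
  · intro c hc
    obtain ⟨s, hR⟩ := FF_spec hc
    have hc1 := memCv hc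
    exact ⟨hR.cop, hR.m0, hR.n0, hR.mn, bound2 hR H hc1.2.1 _ (Or.inl rfl),
      bound2 hR H hc1.2.1 _ (Or.inr rfl), vc6 hR⟩

end six

section four

open Pool.Agent.W605.RT

theorem parv4 : PARV 4 12 M4 N4 := by
  refine ⟨54, FF, fun H => ⟨?_, ?_⟩⟩
  · intro c hc c' hc' hcc
    rw [Finset.mem_coe] at hc hc'
    simp only [Cv, Finset.mem_filter] at hc hc'
    obtain ⟨-, hD, -, -, hmin, hT⟩ := hc
    obtain ⟨-, hD', -, -, hmin', hT'⟩ := hc'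
    have r := FF_rel (core hD hT)
    have r' := FF_rel (core hD' hT')
    change Rel c (FF c) at r
    change Rel c' (FF c') at r'
    rw [← hcc] at r'
    exact rel_unique r r' hmin hmin'
  · intro c hc
    simp only [Cv, Finset.mem_filter] at hc
    obtain ⟨-, hD, hH, -, hmin, hT⟩ := hc
    have r := FF_rel (core hD hT)
    change Rel c (FF c) at r
    obtain ⟨hb1, hb2⟩ := rel_bound (A := c.1) (B := c.2) r hH
    set ab := FF c with hab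
    clear_value ab
    obtain ⟨A, B⟩ := c
    obtain ⟨a, b⟩ := ab
    obtain ⟨g, e, hg, hco, ha0, hb0, hne, he, hA, hB⟩ := r
    change a ≠ 0 at ha0
    change b ≠ 0 at hb0
    change a ^ 2 ≠ b ^ 2 at hne
    change 3 * e = g ^ 2 * (a ^ 2 + b ^ 2) at he
    change 3 * A = -(g ^ 4 * (a ^ 4 - a ^ 2 * b ^ 2 + b ^ 4)) at hA
    change 27 * B = g ^ 6 * ((a ^ 2 + b ^ 2) * (2 * a ^ 2 - b ^ 2) * (a ^ 2 - 2 * b ^ 2)) at hB
    refine ⟨hco, ?_, ?_, ?_, hb1, hb2, ?_⟩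
    · exact pow_ne_zero 2 ha0
    · exact pow_ne_zero 2 hb0
    · exact hne
    · have hgq : (g : ℚ) ≠ 0 := by exact_mod_cast hg.ne'
      have heq : (e : ℚ) = (g : ℚ) ^ 2 * ((a : ℚ) ^ 2 + (b : ℚ) ^ 2) / 3 := by
        have : (3 : ℚ) * e = (g : ℚ) ^ 2 * ((a : ℚ) ^ 2 + (b : ℚ) ^ 2) := by exact_mod_cast he
        linarith
      have hAq : (A : ℚ) = -((g : ℚ) ^ 4 * ((a : ℚ) ^ 4 - (a : ℚ) ^ 2 * (b : ℚ) ^ 2 + (b : ℚ) ^ 4)) / 3 := by
        have : (3 : ℚ) * A = -((g : ℚ) ^ 4 * ((a : ℚ) ^ 4 - (a : ℚ) ^ 2 * (b : ℚ) ^ 2 + (b : ℚ) ^ 4)) := by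
          exact_mod_cast hA
        linarith
      have hBq : (B : ℚ) = (g : ℚ) ^ 6 * (((a : ℚ) ^ 2 + (b : ℚ) ^ 2) * (2 * (a : ℚ) ^ 2 - (b : ℚ) ^ 2) *
          ((a : ℚ) ^ 2 - 2 * (b : ℚ) ^ 2)) / 27 := by
        have : (27 : ℚ) * B = (g : ℚ) ^ 6 * (((a : ℚ) ^ 2 + (b : ℚ) ^ 2) *
            (2 * (a : ℚ) ^ 2 - (b : ℚ) ^ 2) * ((a : ℚ) ^ 2 - 2 * (b : ℚ) ^ 2)) := by exact_mod_cast hB
        linarith
      refine ⟨g, e, hgq, rfl, rfl, rfl, rfl, ?_, ?_, ?_⟩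
      · simp only [E, Sh, M4, N4]
        rw [heq]; push_cast; ring
      · simp only [E, Sh, M4, N4]
        rw [heq, hAq]; push_cast; ring
      · simp only [E, Sh, M4, N4]
        rw [heq, hAq, hBq]; ring

end four

end Pool.Agent.H905.SH
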